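import Pool.Agent.Helper13.SA.RunDefs

/-! Runs of the process of iterated splittings, seen from a subgroup. -/

namespace Pool.Agent.Helper13.SA

open MulAction

/-- The action of the subgroup `L` of `H` on the tree of the splitting `S` of `H`: it has no fixed
vertex, all its edge stabilisers are finite and `L` is not virtually free, or some edge with finite
stabiliser joins two vertices with infinite stabilisers. -/
def ActsOverFinite {H : Type} [Group H] (S : Splitting FinVZ H) (L : Subgroup H) : Prop :=
  ((∀ v : S.V, ∃ l ∈ L, l • v ≠ v) ∧
    (∀ u v, S.T.Adj u v → Finite ↥(L ⊓ (stabilizer H u ⊓ stabilizer H v))) ∧ ¬ VFree L) ∨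
    ∃ u v, S.T.Adj u v ∧ Finite ↥(L ⊓ (stabilizer H u ⊓ stabilizer H v)) ∧
      Infinite ↥(L ⊓ stabilizer H u) ∧ Infinite ↥(L ⊓ stabilizer H v)

/-- The subgroup of the elements `h` of `H` with `f h` in `g K g⁻¹`. -/
def trace {G H : Type} [Group G] [Group H] (K : Subgroup G) (f : H →* G) (g : G) : Subgroup H :=
  K.comap ((MulAut.conj g⁻¹).toMonoidHom.comp f)

/-- For some `g` the intersection of `g K g⁻¹` and `H` (a subgroup of `G` by `f`) acts on the tree
of `S` as in `ActsOverFinite`. -/
def Sees {G H : Type} [Group G] [Group H] (K : Subgroup G) (f : H →* G)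
    (S : Splitting FinVZ H) : Prop := ∃ g : G, ActsOverFinite S (trace K f g)

open Classical in
/-- A run of the process of iterated splittings from the group `H`, a subgroup of `G` by `f`, in
which `k` of the chosen splittings satisfy `Sees K`: either nothing is done with `H`, or a splitting
`S` is chosen, and then there are runs from the stabilisers of the vertices in a set `R` of
representatives of the orbits of vertices. -/
inductive RunSeen {G : Type} [Group G] (K : Subgroup G) :
    ∀ (H : Type) [Group H], (H →* G) → ℕ → Prop
  | stop (H : Type) [Group H] (f : H →* G) : RunSeen K H f 0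
  | split (H : Type) [Group H] (f : H →* G) (S : Splitting FinVZ H) (R : Finset S.V) (κ : S.V → ℕ)
      (hR : ∀ v : S.V, ∃! r, r ∈ R ∧ ∃ g : H, g • v = r)
      (h : ∀ v ∈ R, RunSeen K (stabilizer H v) (f.comp (stabilizer H v).subtype) (κ v)) :
      RunSeen K H f ((∑ v ∈ R, κ v) + if Sees K f S then 1 else 0)

/-- `H` is an iterated vertex group of `G`, and `f` is its inclusion. -/
inductive Iter (G : Type) [Group G] : ∀ (H : Type) [Group H], (H →* G) → Prop
  | refl : Iter G G (MonoidHom.id G)
  | step (H : Type) [Group H] (f : H →* G) (S : Splitting FinVZ H) (v : S.V) (h : Iter G H f) :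
      Iter G (stabilizer H v) (f.comp (stabilizer H v).subtype)

/-- the centraliser of an element -/
abbrev cen {G : Type} [Group G] (r : G) : Subgroup G := Subgroup.centralizer {r}

/-- For some element `r` of finite order and some edge of the tree of the splitting `S`, the
centraliser of `r` meets the edge group in a finite group, and each of the two vertex groups at this
edge in an infinite group. -/
def CenSplits {G : Type} [Group G] (S : Splitting FinVZ G) : Prop :=
  ∃ (r : G) (u v : S.V), IsOfFinOrder r ∧ S.T.Adj u v ∧
    Finite ↥(cen r ⊓ (stabilizer G u ⊓ stabilizer G v)) ∧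
    Infinite ↥(cen r ⊓ stabilizer G u) ∧ Infinite ↥(cen r ⊓ stabilizer G v)

end Pool.Agent.Helper13.SA
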