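import Pool.Agent.Helper13.SB.Pot

/-! The process of iterated splittings seen from finitely generated subgroups. -/

namespace Pool.Agent.Helper13.SA

open SimpleGraph Function MulAction

variable {G : Type} [Group G]

theorem Pot.nonneg {H : Type} [Group H] {K : Subgroup G} {f : H →* G} {x : ℝ} (h : Pot K f x) :
    0 ≤ x := by
  have := h ∅ fun a ha => absurd ha (Finset.notMem_empty a)
  rwa [Finset.sum_empty] at this

theorem runSeen_le {K : Subgroup G} {B : ℕ} (hB : ∀ F : Subgroup K, Finite F → Nat.card F ≤ B)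
    {H : Type} [Group H] {f : H →* G} {k : ℕ} (h : RunSeen K H f k) :
    Injective f → FGK K f → ∀ x : ℝ, Pot K f x → (k : ℝ) ≤ B * x := by
  classical
  have hB0 : (0 : ℝ) < B := by exact_mod_cast bound_pos hB
  induction h with
  | stop H f =>
    intro hf hc x hx
    have := hx.nonneg
    rw [Nat.cast_zero]
    positivity
  | split H f S R κ hR _ ih =>
    intro hf hc x hx
    have h1 : ∀ ε : ℝ, 0 < ε → ∀ v, ∃ A : Finset G, v ∈ R →
        DC K (f.comp (stabilizer H v).subtype) A ∧
        (κ v : ℝ) / B - ε < ∑ a ∈ A, wt (phi K (f.comp (stabilizer H v).subtype) a) := by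
      intro ε hε v
      by_cases hv : v ∈ R
      · by_contra hcon
        push Not at hcon
        have h2 : Pot K (f.comp (stabilizer H v).subtype) ((κ v : ℝ) / B - ε) := fun A hA =>
          (hcon A).2 hA
        have h3 := ih v hv (comp_subtype_inj hf _) (fgk_stab hc S hf hB v) _ h2
        have h4 : (B : ℝ) * ((κ v : ℝ) / B - ε) = κ v - B * ε := by
          field_simp
        rw [h4] at h3
        have h5 : 0 < (B : ℝ) * ε := mul_pos hB0 hε
        linarith
      · exact ⟨∅, fun h => absurd h hv⟩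
    have h2 : ∀ ε : ℝ, 0 < ε → (∑ v ∈ R, ((κ v : ℝ) / B - ε)) +
        (if Sees K f S then (B : ℝ)⁻¹ else 0) ≤ x := by
      intro ε hε
      choose A hA using h1 ε hε
      have h3 := fam_ineq hc S hf hB R hR A (fun v hv => (hA v hv).1) hx
      have h4 : ∑ v ∈ R, ((κ v : ℝ) / B - ε) ≤
          ∑ v ∈ R, ∑ a ∈ A v, wt (phi K (f.comp (stabilizer H v).subtype) a) :=
        Finset.sum_le_sum fun v hv => (hA v hv).2.le
      linarith
    have h3 : (∑ v ∈ R, (κ v : ℝ) / B) + (if Sees K f S then (B : ℝ)⁻¹ else 0) ≤ x := by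
      refine le_of_forall_pos_le_add fun δ hδ => ?_
      have h4 := h2 (δ / (R.card + 1)) (by positivity)
      rw [Finset.sum_sub_distrib, Finset.sum_const, nsmul_eq_mul] at h4
      have h5 : (R.card : ℝ) * (δ / (R.card + 1)) ≤ δ := by
        rw [mul_div_assoc', div_le_iff₀ (by positivity)]
        nlinarith
      linarith
    have h4 : (((∑ v ∈ R, κ v) + if Sees K f S then 1 else 0 : ℕ) : ℝ) =
        B * ((∑ v ∈ R, (κ v : ℝ) / B) + (if Sees K f S then (B : ℝ)⁻¹ else 0)) := by
      rw [mul_add, Finset.mul_sum, Nat.cast_add, Nat.cast_sum]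
      congr 1
      · refine Finset.sum_congr rfl fun v _ => ?_
        field_simp
      · split_ifs
        · rw [mul_inv_cancel₀ hB0.ne', Nat.cast_one]
        · rw [mul_zero, Nat.cast_zero]
    rw [h4]
    exact mul_le_mul_of_nonneg_left h3 hB0.le

/-- The conjugates of `K`. -/
theorem exists_top_equiv (K : Subgroup G) (g : G) :
    ∃ e : ↥(trace K (MonoidHom.id G) g) ≃* K, ∀ x, e x = phi K (MonoidHom.id G) g x := by
  have hφ : Bijective (phi K (MonoidHom.id G) g) := by
    refine ⟨phi_inj K injective_id g, ?_⟩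
    rintro ⟨x, hx⟩
    have h1 : g⁻¹ * (g * x * g⁻¹) * g = x := by group
    refine ⟨⟨g * x * g⁻¹, mem_trace.2 ?_⟩, ?_⟩
    · show g⁻¹ * (g * x * g⁻¹) * g ∈ K
      rw [h1]
      exact hx
    · apply Subtype.ext
      rw [phi_val]
      exact h1
  exact ⟨MulEquiv.ofBijective _ hφ, fun x => rfl⟩

theorem fgk_top {K : Subgroup G} (hK : Group.FG K) : FGK K (MonoidHom.id G) := by
  intro g
  obtain ⟨e, -⟩ := exists_top_equiv K g
  exact Group.fg_of_surjective (f := e.symm.toMonoidHom) e.symm.surjective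

theorem pot_top {K : Subgroup G} (hK : Group.FG K) :
    Pot K (MonoidHom.id G) (wt (MonoidHom.id K)) := by
  classical
  intro A hA
  have hw : ∀ a ∈ A, wt (phi K (MonoidHom.id G) a) = wt (MonoidHom.id K) := by
    intro a _
    obtain ⟨e, he⟩ := exists_top_equiv K a
    refine wt_congr e.symm 1 fun y => ?_
    rw [← he, e.apply_symm_apply, one_mul, inv_one, mul_one]
    rfl
  have h1 : A.card ≤ 1 := by
    refine Finset.card_le_one.2 fun a ha b hb => hA a ha b hb ⟨b * a⁻¹, 1, K.one_mem, ?_⟩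
    show b * a⁻¹ * a * 1 = b
    group
  rw [Finset.sum_congr rfl hw, Finset.sum_const, nsmul_eq_mul]
  have h2 : 0 ≤ wt (MonoidHom.id K) := wt_nonneg injective_id
  have h3 : (A.card : ℝ) ≤ 1 := by exact_mod_cast h1
  nlinarith

theorem exists_gen_subgroup {K : Subgroup G} {d : ℕ} (s : Fin d → G)
    (hs : Subgroup.closure (Set.range s) = K) :
    ∃ s' : Fin d → K, Subgroup.closure (Set.range s') = ⊤ := by
  subst hs
  have h1 : ∀ j, s j ∈ Subgroup.closure (Set.range s) := fun j => Subgroup.subset_closure ⟨j, rfl⟩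
  refine ⟨fun j => ⟨s j, h1 j⟩, ?_⟩
  have h2 : ((⊤ : Subgroup ↥(Subgroup.closure (Set.range s))).map
      (Subgroup.closure (Set.range s)).subtype) =
      (Subgroup.closure (Set.range fun j => (⟨s j, h1 j⟩ :
        Subgroup.closure (Set.range s)))).map (Subgroup.closure (Set.range s)).subtype := by
    rw [MonoidHom.map_closure, ← Set.range_comp]
    have h3 : ((Subgroup.closure (Set.range s)).subtype ∘ fun j => (⟨s j, h1 j⟩ :
      Subgroup.closure (Set.range s))) = s := rfl
    rw [h3, ← MonoidHom.range_eq_map, Subgroup.range_subtype]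
  exact (Subgroup.map_injective (Subgroup.closure (Set.range s)).subtype_injective h2).symm

theorem card_sub {K : Subgroup G} {B : ℕ}
    (hB : ∀ F : Subgroup G, F ≤ K → Finite F → Nat.card F ≤ B) :
    ∀ F : Subgroup K, Finite F → Nat.card F ≤ B := by
  intro F hF
  have e : F ≃* ↥(F.map K.subtype) := F.equivMapOfInjective K.subtype Subtype.val_injective
  rw [Nat.card_congr e.toEquiv]
  exact hB _ (Subgroup.map_subtype_le F) (Finite.of_equiv F e.toEquiv)

theorem runSeen_bound (K : Subgroup G) (d B k : ℕ) (s : Fin d → G)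
    (hs : Subgroup.closure (Set.range s) = K)
    (hB : ∀ F : Subgroup G, F ≤ K → Finite F → Nat.card F ≤ B)
    (h : RunSeen K G (MonoidHom.id G) k) : k ≤ B * (d - 1) := by
  obtain ⟨s', hs'⟩ := exists_gen_subgroup s hs
  have hK : Group.FG K := Group.fg_iff.2 ⟨Set.range s', hs', Set.finite_range s'⟩
  have h1 := runSeen_le (card_sub hB) h injective_id (fgk_top hK) _ (pot_top hK)
  have h2 := wt_le_of_gen (f := MonoidHom.id K) injective_id s' hs'
  have h3 : (k : ℝ) ≤ ((B * (d - 1) : ℕ) : ℝ) := by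
    rw [Nat.cast_mul]
    exact h1.trans (mul_le_mul_of_nonneg_left h2 (Nat.cast_nonneg B))
  exact_mod_cast h3

section Chain

theorem Iter.injective {H : Type} [Group H] {f : H →* G} (h : Iter G H f) : Injective f := by
  induction h with
  | refl => exact injective_id
  | step H f S v _ ih => exact comp_subtype_inj ih _

theorem Iter.trans {H L : Type} [Group H] [Group L] {f : H →* G} {p : L →* H} (h1 : Iter G H f)
    (h2 : Iter H L p) : Iter G L (f.comp p) := by
  induction h2 with
  | refl => exact h1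
  | step L p S v _ ih => exact Iter.step L (f.comp p) S v ih

variable {H : Type} [Group H] {K : Subgroup G} {B : ℕ}

theorem pot_vertex (hB : ∀ F : Subgroup K, Finite F → Nat.card F ≤ B) {f : H →* G}
    (hc : FGK K f) (hf : Injective f) {x : ℝ} (hx : Pot K f x) (S : Splitting FinVZ H)
    (R : Finset S.V) (hR : ∀ v : S.V, ∃! r, r ∈ R ∧ ∃ g : H, g • v = r) {v : S.V} (hv : v ∈ R)
    [Decidable (Sees K f S)] :
    Pot K (f.comp (stabilizer H v).subtype) (x - if Sees K f S then (B : ℝ)⁻¹ else 0) := by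
  classical
  intro A hA
  have h1 := fam_ineq hc S hf hB R hR (fun u => if u = v then A else ∅) (fun u hu => by
      by_cases h : u = v
      · subst h
        rw [if_pos rfl]
        exact hA
      · rw [if_neg h]
        exact fun a ha => absurd ha (Finset.notMem_empty a)) hx
  rw [Finset.sum_eq_single_of_mem v hv fun u _ hu => by rw [if_neg hu, Finset.sum_empty],
    if_pos rfl] at h1
  linarith

theorem iter_pot (hB : ∀ F : Subgroup K, Finite F → Nat.card F ≤ B) {L : Type} [Group L]
    {p : L →* H} (h : Iter H L p) {f : H →* G} (hc : FGK K f) (hf : Injective f) {x : ℝ}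
    (hx : Pot K f x) : FGK K (f.comp p) ∧ Pot K (f.comp p) x := by
  classical
  induction h with
  | refl => exact ⟨hc, hx⟩
  | step L p S v hLp ih =>
    obtain ⟨hL, hw⟩ := ih
    have hinj : Injective (f.comp p) := hf.comp hLp.injective
    refine ⟨fgk_stab hL S hinj hB v, ?_⟩
    obtain ⟨R, hR, hv⟩ := exists_reps_finset S v
    have h1 := pot_vertex hB hL hinj hw S R hR hv
    have h3 : (0 : ℝ) ≤ if Sees K (f.comp p) S then (B : ℝ)⁻¹ else 0 := by
      split_ifs
      · positivity
      · exact le_rfl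
    intro A hA
    have h2 := h1 A hA
    exact h2.trans (sub_le_self _ h3)

end Chain

/-- A vertex group which is not strongly accessible. -/
theorem exists_vertex_not_sa {H : Type} [Group H] (hns : ¬ StronglyAccessible FinVZ H)
    (S : Splitting FinVZ H) : ∃ R : Finset S.V, (∀ v : S.V, ∃! r, r ∈ R ∧ ∃ g : H, g • v = r) ∧
      ∃ r ∈ R, ¬ StronglyAccessible FinVZ (stabilizer H r) := by
  classical
  obtain ⟨v0⟩ : Nonempty S.V := S.tree.connected.nonempty
  obtain ⟨R, hR, -⟩ := exists_reps_finset S v0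
  refine ⟨R, hR, ?_⟩
  by_contra hcon
  push Not at hcon
  refine hns (sa_of_stabilizers subClosed_finVZ S fun v => ?_)
  obtain ⟨r, ⟨hr, g, hg⟩, -⟩ := hR v
  exact sa_congr subClosed_finVZ (stabilizerEquivStabilizer hg.symm) (hcon r hr)

/-- Reduction to groups whose splittings are not seen by given subgroups. -/
theorem unseen (G : Type) [Group G] (𝒦 : Set (Subgroup G)) (h𝒦 : 𝒦.Finite)
    (hfg : ∀ K ∈ 𝒦, K.FG)
    (hB : ∀ K ∈ 𝒦, ∃ B : ℕ, ∀ F : Subgroup G, F ≤ K → Finite F → Nat.card F ≤ B)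
    (hns : ¬ StronglyAccessible FinVZ G) :
    ∃ (H : Type) (_ : Group H) (f : H →* G), Iter G H f ∧ ¬ StronglyAccessible FinVZ H ∧
      ∀ (L : Type) [Group L] (p : L →* H), Iter H L p → ¬ StronglyAccessible FinVZ L →
        ∀ S : Splitting FinVZ L, ∀ K ∈ 𝒦, ¬ Sees K (f.comp p) S := by
  classical
  have := h𝒦.fintype
  choose! b hb using hB
  let B : ℕ := 1 + ∑ K : 𝒦, b K
  have hBK : ∀ K : 𝒦, ∀ F : Subgroup (K : Subgroup G), Finite F → Nat.card F ≤ B := by
    intro K
    refine card_sub fun F hF hF' => (hb K.1 K.2 F hF hF').trans ?_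
    have h1 : b K ≤ ∑ K : 𝒦, b K :=
      Finset.single_le_sum (f := fun K : 𝒦 => b K) (fun _ _ => Nat.zero_le _) (Finset.mem_univ K)
    omega
  have hB0 : (0 : ℝ) < B := by
    have : 0 < B := by
      show 0 < 1 + _
      omega
    exact_mod_cast this
  have hBi : (0 : ℝ) < (B : ℝ)⁻¹ := inv_pos.2 hB0
  have hKfg : ∀ K : 𝒦, Group.FG (K : Subgroup G) := fun K =>
    (Group.fg_iff_subgroup_fg (K : Subgroup G)).2 (hfg K.1 K.2)
  by_contra hcon
  push Not at hcon
  let X : ℝ := ∑ K : 𝒦, wt (MonoidHom.id (K : Subgroup G))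
  have key : ∀ n : ℕ, ∃ (H : Type) (_ : Group H) (f : H →* G), Iter G H f ∧
      ¬ StronglyAccessible FinVZ H ∧ (∀ K : 𝒦, FGK (K : Subgroup G) f) ∧
      ∃ x : 𝒦 → ℝ, (∀ K : 𝒦, Pot (K : Subgroup G) f (x K)) ∧
        ∑ K : 𝒦, x K ≤ X - n * (B : ℝ)⁻¹ := by
    intro n
    induction n with
    | zero =>
      refine ⟨G, inferInstance, MonoidHom.id G, Iter.refl, hns, fun K => fgk_top (hKfg K),
        fun K => wt (MonoidHom.id (K : Subgroup G)), fun K => pot_top (hKfg K), ?_⟩
      rw [Nat.cast_zero, zero_mul, sub_zero]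
    | succ n ih =>
      obtain ⟨H, _, f, hGH, hH, hHc, x, hx, hw⟩ := ih
      have hf := hGH.injective
      obtain ⟨L, _, p, hHL, hL, S, K0, hK0, hS⟩ := hcon H _ f hGH hH
      obtain ⟨R, hR, r, hr, hr'⟩ := exists_vertex_not_sa hL S
      have h1 : ∀ K : 𝒦, FGK (K : Subgroup G) (f.comp p) ∧ Pot (K : Subgroup G) (f.comp p) (x K) :=
        fun K => iter_pot (hBK K) hHL (hHc K) hf (hx K)
      have hinj : Injective (f.comp p) := (hGH.trans hHL).injective
      refine ⟨stabilizer L r, inferInstance, (f.comp p).comp (stabilizer L r).subtype,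
        Iter.step L (f.comp p) S r (hGH.trans hHL), hr', fun K => fgk_stab (h1 K).1 S hinj (hBK K) r,
        fun K => x K - if Sees (K : Subgroup G) (f.comp p) S then (B : ℝ)⁻¹ else 0,
        fun K => pot_vertex (hBK K) (h1 K).1 hinj (h1 K).2 S R hR hr, ?_⟩
      rw [Finset.sum_sub_distrib]
      have h2 : (B : ℝ)⁻¹ ≤ ∑ K : 𝒦, (if Sees (K : Subgroup G) (f.comp p) S
          then (B : ℝ)⁻¹ else 0) := by
        have h3 : (if Sees ((⟨K0, hK0⟩ : 𝒦) : Subgroup G) (f.comp p) S
          then (B : ℝ)⁻¹ else 0) ≤ ∑ K : 𝒦, (if Sees (K : Subgroup G) (f.comp p) S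
          then (B : ℝ)⁻¹ else 0) :=
          Finset.single_le_sum (f := fun K : 𝒦 => (if Sees (K : Subgroup G) (f.comp p) S
          then (B : ℝ)⁻¹ else 0)) (fun K _ => by
            show (0 : ℝ) ≤ if Sees (K : Subgroup G) (f.comp p) S then (B : ℝ)⁻¹ else 0
            split_ifs
            · exact hBi.le
            · exact le_rfl) (Finset.mem_univ (⟨K0, hK0⟩ : 𝒦))
        have h4 : (if Sees ((⟨K0, hK0⟩ : 𝒦) : Subgroup G) (f.comp p) S
          then (B : ℝ)⁻¹ else 0) = (B : ℝ)⁻¹ := if_pos hS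
        exact h4.symm.le.trans h3
      push_cast
      linarith
  obtain ⟨n, hn⟩ := exists_nat_gt (X * B)
  obtain ⟨H, _, f, -, -, -, x, hx, hw⟩ := key n
  have h1 : 0 ≤ ∑ K : 𝒦, x K := Finset.sum_nonneg fun K _ => (hx K).nonneg
  have h2 : (n : ℝ) * (B : ℝ)⁻¹ ≤ X := by linarith
  rw [← div_eq_mul_inv, div_le_iff₀ hB0] at h2
  linarith

end Pool.Agent.Helper13.SA
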