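import Pool.Agent.Helper13.SB.SubIneq

/-! The sum of the weights of the intersections with the conjugates of a subgroup. -/

namespace Pool.Agent.Helper13.SA

open SimpleGraph Function MulAction

variable {G : Type} [Group G] {H : Type} [Group H]

theorem mem_trace {K : Subgroup G} {f : H →* G} {g : G} {h : H} :
    h ∈ trace K f g ↔ g⁻¹ * f h * g ∈ K := by
  have h1 : ((MulAut.conj g⁻¹).toMonoidHom.comp f) h = g⁻¹ * f h * g := by
    show MulAut.conj g⁻¹ (f h) = _
    rw [MulAut.conj_apply, inv_inv]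
  rw [trace, Subgroup.mem_comap, h1]

/-- the inclusion into `K`, after conjugation -/
def phi (K : Subgroup G) (f : H →* G) (g : G) : ↥(trace K f g) →* K :=
  ((MulAut.conj g⁻¹).toMonoidHom.comp f).subgroupComap K

theorem phi_val (K : Subgroup G) (f : H →* G) (g : G) (h : ↥(trace K f g)) :
    (phi K f g h : G) = g⁻¹ * f h * g := by
  show MulAut.conj g⁻¹ (f h) = _
  rw [MulAut.conj_apply, inv_inv]

theorem phi_inj (K : Subgroup G) {f : H →* G} (hf : Injective f) (g : G) :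
    Injective (phi K f g) := by
  intro a b hab
  have h1 : (phi K f g a : G) = phi K f g b := congrArg Subtype.val hab
  rw [phi_val, phi_val] at h1
  exact Subtype.ext (hf (mul_left_cancel (mul_right_cancel h1)))

/-- the intersections with the conjugates are finitely generated -/
def FGK (K : Subgroup G) (f : H →* G) : Prop := ∀ g : G, Group.FG (trace K f g)

/-- elements of different double cosets -/
def DC (K : Subgroup G) (f : H →* G) (A : Finset G) : Prop :=
  ∀ a ∈ A, ∀ b ∈ A, (∃ h : H, ∃ k ∈ K, f h * a * k = b) → a = b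

/-- the sums of the weights are at most `x` -/
def Pot (K : Subgroup G) (f : H →* G) (x : ℝ) : Prop :=
  ∀ A : Finset G, DC K f A → ∑ a ∈ A, wt (phi K f a) ≤ x

/-- double cosets -/
def dset (K : Subgroup G) (f : H →* G) : Setoid G where
  r := fun a b => ∃ h : H, ∃ k ∈ K, f h * a * k = b
  iseqv :=
    { refl := fun a => ⟨1, 1, K.one_mem, by simp⟩
      symm := by
        rintro a b ⟨h, k, hk, rfl⟩
        refine ⟨h⁻¹, k⁻¹, K.inv_mem hk, ?_⟩
        rw [map_inv]
        group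
      trans := by
        rintro a b c ⟨h, k, hk, rfl⟩ ⟨h', k', hk', rfl⟩
        refine ⟨h' * h, k * k', K.mul_mem hk hk', ?_⟩
        rw [map_mul]
        group }

/-- The intersection of a vertex group and a conjugate of `K`. -/
theorem exists_trace_equiv (K : Subgroup G) (f : H →* G) (S : Splitting FinVZ H) (v : S.V)
    (a ρ : G) (h : H) (k : G) (hk : k ∈ K) (hak : f h * ρ * k = a) :
    ∃ e : ↥(trace K (f.comp (stabilizer H v).subtype) a) ≃*
      ↥(trace K f ρ ⊓ stabilizer H (h⁻¹ • v)),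
      ∀ x, (e x : H) = h⁻¹ * ((x : stabilizer H v) : H) * h := by
  have h0 : ∀ x : H, ρ⁻¹ * f (h⁻¹ * x * h) * ρ = k * (a⁻¹ * f x * a) * k⁻¹ := by
    intro x
    rw [← hak, map_mul, map_mul, map_inv]
    group
  have h1 : ∀ x : ↥(trace K (f.comp (stabilizer H v).subtype) a),
      h⁻¹ * ((x : stabilizer H v) : H) * h ∈ trace K f ρ ⊓ stabilizer H (h⁻¹ • v) := by
    intro x
    refine ⟨mem_trace.2 ?_, ?_⟩
    · rw [h0]
      exact K.mul_mem (K.mul_mem hk (mem_trace.1 x.2)) (K.inv_mem hk)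
    · show (h⁻¹ * ((x : stabilizer H v) : H) * h) • h⁻¹ • v = h⁻¹ • v
      rw [← mul_smul, mul_assoc, mul_inv_cancel, mul_one, mul_smul]
      congr 1
      exact x.1.2
  let φ : ↥(trace K (f.comp (stabilizer H v).subtype) a) →*
      ↥(trace K f ρ ⊓ stabilizer H (h⁻¹ • v)) :=
    MonoidHom.mk' (fun x => ⟨_, h1 x⟩) (fun x y => by
      apply Subtype.ext
      show h⁻¹ * (((x : stabilizer H v) : H) * ((y : stabilizer H v) : H)) * h =
        (h⁻¹ * ((x : stabilizer H v) : H) * h) * (h⁻¹ * ((y : stabilizer H v) : H) * h)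
      group)
  have hφ' : ∀ x, (φ x : H) = h⁻¹ * ((x : stabilizer H v) : H) * h := fun x => rfl
  have hφ : Bijective φ := by
    constructor
    · intro x y hxy
      have h2 : h⁻¹ * ((x : stabilizer H v) : H) * h = h⁻¹ * ((y : stabilizer H v) : H) * h := by
        rw [← hφ', ← hφ', hxy]
      have h3 := mul_left_cancel (mul_right_cancel h2)
      exact Subtype.ext (Subtype.ext h3)
    · rintro ⟨x, hx1, hx2⟩
      have h2 : h * x * h⁻¹ ∈ stabilizer H v := by
        show (h * x * h⁻¹) • v = v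
        rw [mul_smul, mul_smul]
        have h3 : x • h⁻¹ • v = h⁻¹ • v := hx2
        rw [h3, smul_inv_smul]
      have h4 : h⁻¹ * (h * x * h⁻¹) * h = x := by group
      refine ⟨⟨⟨h * x * h⁻¹, h2⟩, mem_trace.2 ?_⟩, ?_⟩
      · show a⁻¹ * f (h * x * h⁻¹) * a ∈ K
        have h5 := h0 (h * x * h⁻¹)
        rw [h4] at h5
        have h6 : a⁻¹ * f (h * x * h⁻¹) * a = k⁻¹ * (ρ⁻¹ * f x * ρ) * k := by
          rw [h5]
          group
        rw [h6]
        exact K.mul_mem (K.mul_mem (K.inv_mem hk) (mem_trace.1 hx1)) hk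
      · apply Subtype.ext
        rw [hφ']
        exact h4
  exact ⟨MulEquiv.ofBijective φ hφ, fun x => rfl⟩

theorem wt_trace (K : Subgroup G) (f : H →* G) (S : Splitting FinVZ H) (v : S.V)
    (a ρ : G) (h : H) (k : G) (hk : k ∈ K) (hak : f h * ρ * k = a)
    (hfg : Group.FG ↥(trace K f ρ ⊓ stabilizer H (h⁻¹ • v))) :
    wt (phi K (f.comp (stabilizer H v).subtype) a) = wv (S := S) (phi K f ρ) (h⁻¹ • v) := by
  obtain ⟨e, he⟩ := exists_trace_equiv K f S v a ρ h k hk hak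
  refine wt_congr e.symm (⟨k, hk⟩⁻¹ : K) fun y => ?_
  apply Subtype.ext
  have h2 := he (e.symm y)
  rw [e.apply_symm_apply] at h2
  have h3 : (((e.symm y : ↥(trace K (f.comp (stabilizer H v).subtype) a)) : stabilizer H v) : H) =
      h * (y : H) * h⁻¹ := by
    rw [h2]
    group
  rw [phi_val]
  show a⁻¹ * f (((e.symm y : ↥(trace K (f.comp (stabilizer H v).subtype) a)) :
    stabilizer H v) : H) * a = k⁻¹ * (phi K f ρ (Subgroup.inclusion
      (infl (trace K f ρ) (stabilizer H (h⁻¹ • v))) y) : G) * k⁻¹⁻¹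
  rw [phi_val, h3]
  show a⁻¹ * f (h * (y : H) * h⁻¹) * a = k⁻¹ * (ρ⁻¹ * f (y : H) * ρ) * k⁻¹⁻¹
  rw [← hak, map_mul, map_mul, map_inv]
  group

theorem dc_aux {x y c ρ k l a b : G} (h1 : x * ρ * k = a) (h2 : y * ρ * l = b) :
    y * c * x⁻¹ * a * (k⁻¹ * (ρ⁻¹ * c * ρ)⁻¹ * l) = b := by
  rw [← h1, ← h2]
  group

variable {K : Subgroup G} {B : ℕ}

theorem fgk_stab {f : H →* G} (hC : FGK K f) (S : Splitting FinVZ H) (hf : Injective f)
    (hB : ∀ F : Subgroup K, Finite F → Nat.card F ≤ B) (v : S.V) :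
    FGK K (f.comp (stabilizer H v).subtype) := by
  classical
  intro a
  obtain ⟨e, -⟩ := exists_trace_equiv K f S v a a 1 1 K.one_mem (by simp)
  have h1 := hC a
  have h2 := (sub_ineq S (trace K f a) (phi_inj K hf a) hB {(1 : H)⁻¹ • v}
    (fun w hw w' hw' _ _ _ => by
      rw [Finset.mem_singleton.1 hw, Finset.mem_singleton.1 hw']) False (fun h => h.elim)).1 _
      (Finset.mem_singleton_self _)
  exact Group.fg_of_surjective (f := e.symm.toMonoidHom) e.symm.surjective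

theorem fam_ineq {f : H →* G} (hC : FGK K f) (S : Splitting FinVZ H)
    (hf : Injective f) (hB : ∀ F : Subgroup K, Finite F → Nat.card F ≤ B)
    (R : Finset S.V) (hR : ∀ v : S.V, ∃! r, r ∈ R ∧ ∃ g : H, g • v = r)
    (A : S.V → Finset G) (hA : ∀ v ∈ R, DC K (f.comp (stabilizer H v).subtype) (A v)) {x : ℝ}
    (hx : Pot K f x) [Decidable (Sees K f S)] :
    ∑ v ∈ R, ∑ a ∈ A v, wt (phi K (f.comp (stabilizer H v).subtype) a) +
      (if Sees K f S then (B : ℝ)⁻¹ else 0) ≤ x := by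
  classical
  have hg0 : ∃ g0 : G, Sees K f S → ActsOverFinite S (trace K f g0) := by
    by_cases hb : Sees K f S
    · obtain ⟨g, hg⟩ := hb
      exact ⟨g, fun _ => hg⟩
    · exact ⟨1, fun h => absurd h hb⟩
  obtain ⟨g0, hbad⟩ := hg0
  let ρ : Quotient (dset K f) → G := fun q => if q = Quotient.mk (dset K f) g0 then g0 else Quotient.out q
  have hρ : ∀ q, Quotient.mk (dset K f) (ρ q) = q := by
    intro q
    show Quotient.mk (dset K f) (if q = Quotient.mk (dset K f) g0 then g0 else Quotient.out q) = q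
    split_ifs with h
    · exact h.symm
    · exact Quotient.out_eq q
  have hρ0 : ρ (Quotient.mk (dset K f) g0) = g0 := if_pos rfl
  let σ : Finset (Σ _ : S.V, G) := R.sigma A
  let κ : (Σ _ : S.V, G) → Quotient (dset K f) := fun s => Quotient.mk (dset K f) s.2
  have hg : ∀ s, ∃ (h : H) (k : G), k ∈ K ∧ f h * ρ (κ s) * k = s.2 := by
    intro s
    obtain ⟨h, k, hk, h1⟩ := Quotient.exact (hρ (κ s))
    exact ⟨h, k, hk, h1⟩
  choose g k hk hg using hg
  let w : (Σ _ : S.V, G) → S.V := fun s => (g s)⁻¹ • s.1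
  have key : ∀ s ∈ σ, ∀ s' ∈ σ, κ s = κ s' → ∀ c ∈ trace K f (ρ (κ s)), c • w s = w s' →
      s = s' := by
    rintro ⟨v, a⟩ hs ⟨v', a'⟩ hs' hκ c hc hw
    obtain ⟨hs1, hs2⟩ := Finset.mem_sigma.1 hs
    obtain ⟨hs1', hs2'⟩ := Finset.mem_sigma.1 hs'
    have h1 : (g ⟨v', a'⟩ * c * (g ⟨v, a⟩)⁻¹) • v = v' := by
      have h2 : c • (g ⟨v, a⟩)⁻¹ • v = (g ⟨v', a'⟩)⁻¹ • v' := hw
      rw [mul_smul, mul_smul, h2, smul_inv_smul]
    have h3 : v = v' := by
      obtain ⟨r, -, hu⟩ := hR v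
      rw [hu v ⟨hs1, 1, one_smul _ _⟩, hu v' ⟨hs1', _, h1⟩]
    subst h3
    have h5 : f (g ⟨v, a⟩) * ρ (κ ⟨v, a⟩) * k ⟨v, a⟩ = a := hg ⟨v, a⟩
    have h6 : f (g ⟨v, a'⟩) * ρ (κ ⟨v, a'⟩) * k ⟨v, a'⟩ = a' := hg ⟨v, a'⟩
    rw [← hκ] at h6
    have h7 := mem_trace.1 hc
    have h4 : a = a' := by
      refine hA v hs1 a hs2 a' hs2' ⟨⟨_, h1⟩, (k ⟨v, a⟩)⁻¹ * ((ρ (κ ⟨v, a⟩))⁻¹ * f c *
        ρ (κ ⟨v, a⟩))⁻¹ * k ⟨v, a'⟩, K.mul_mem (K.mul_mem (K.inv_mem (hk _)) (K.inv_mem h7))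
          (hk _), ?_⟩
      show f (g ⟨v, a'⟩ * c * (g ⟨v, a⟩)⁻¹) * a * _ = a'
      rw [map_mul, map_mul, map_inv]
      exact dc_aux h5 h6
    rw [h4]
  let Q : Finset (Quotient (dset K f)) := insert (Quotient.mk (dset K f) g0) (σ.image κ)
  have hκQ : ∀ s ∈ σ, κ s ∈ Q := fun s hs => Finset.mem_insert_of_mem (Finset.mem_image_of_mem κ hs)
  have hQ : ∀ q ∈ Q,
      (∀ s ∈ σ.filter (fun s => κ s = q), Group.FG ↥(trace K f (ρ q) ⊓ stabilizer H (w s))) ∧
      ∑ s ∈ σ.filter (fun s => κ s = q), wv (S := S) (phi K f (ρ q)) (w s) +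
        (if Sees K f S ∧ q = Quotient.mk (dset K f) g0 then (B : ℝ)⁻¹ else 0) ≤
          wt (phi K f (ρ q)) := by
    intro q hq
    have h1 := hC (ρ q)
    have hinj : ∀ s ∈ σ.filter (fun s => κ s = q), ∀ s' ∈ σ.filter (fun s => κ s = q),
        ∀ c ∈ trace K f (ρ q), c • w s = w s' → s = s' := by
      intro s hs s' hs' c hc hw
      obtain ⟨hs1, hs2⟩ := Finset.mem_filter.1 hs
      obtain ⟨hs1', hs2'⟩ := Finset.mem_filter.1 hs'
      exact key s hs1 s' hs1' (hs2.trans hs2'.symm) c (by rw [hs2]; exact hc) hw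
    have h2 := sub_ineq S (trace K f (ρ q)) (phi_inj K hf (ρ q)) hB
      ((σ.filter (fun s => κ s = q)).image w) (by
      intro x hx x' hx' c hc hcx
      obtain ⟨s, hs, rfl⟩ := Finset.mem_image.1 hx
      obtain ⟨s', hs', rfl⟩ := Finset.mem_image.1 hx'
      rw [hinj s hs s' hs' c hc hcx]) (Sees K f S ∧ q = Quotient.mk (dset K f) g0) (by
      rintro ⟨hb, rfl⟩
      rw [hρ0]
      exact hbad hb)
    refine ⟨fun s hs => h2.1 _ (Finset.mem_image_of_mem w hs), ?_⟩
    have h3 := h2.2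
    rw [Finset.sum_image (fun s hs s' hs' h => hinj s hs s' hs' 1 (Subgroup.one_mem _)
      (by rw [one_smul, h]))] at h3
    exact h3
  have heq : ∀ s ∈ σ, wt (phi K (f.comp (stabilizer H s.1).subtype) s.2) =
      wv (S := S) (phi K f (ρ (κ s))) (w s) := by
    intro s hs
    have h1 := (hQ _ (hκQ s hs)).1 s (Finset.mem_filter.2 ⟨hs, rfl⟩)
    exact wt_trace K f S s.1 s.2 (ρ (κ s)) (g s) (k s) (hk s) (hg s) h1
  have hsum : ∑ v ∈ R, ∑ a ∈ A v, wt (phi K (f.comp (stabilizer H v).subtype) a) =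
      ∑ q ∈ Q, ∑ s ∈ σ.filter (fun s => κ s = q), wv (S := S) (phi K f (ρ q)) (w s) := by
    have h1 : ∑ v ∈ R, ∑ a ∈ A v, wt (phi K (f.comp (stabilizer H v).subtype) a) =
        ∑ s ∈ σ, wt (phi K (f.comp (stabilizer H s.1).subtype) s.2) :=
      (Finset.sum_sigma R A fun s => wt (phi K (f.comp (stabilizer H s.1).subtype) s.2)).symm
    rw [h1, Finset.sum_congr rfl heq, ← Finset.sum_fiberwise_of_maps_to hκQ]
    refine Finset.sum_congr rfl fun q _ => Finset.sum_congr rfl fun s hs => ?_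
    rw [(Finset.mem_filter.1 hs).2]
  have hif : (if Sees K f S then (B : ℝ)⁻¹ else 0) =
      ∑ q ∈ Q, (if Sees K f S ∧ q = Quotient.mk (dset K f) g0 then (B : ℝ)⁻¹ else 0) := by
    by_cases hb : Sees K f S
    · rw [if_pos hb, Finset.sum_eq_single_of_mem (Quotient.mk (dset K f) g0)
        (Finset.mem_insert_self _ _) fun q _ hq => if_neg fun h => hq h.2, if_pos ⟨hb, rfl⟩]
    · rw [if_neg hb, Finset.sum_eq_zero fun q _ => if_neg fun h => hb h.1]
  rw [hsum, hif, ← Finset.sum_add_distrib]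
  refine (Finset.sum_le_sum fun q hq => (hQ q hq).2).trans ?_
  have hρi : ∀ q ∈ Q, ∀ q' ∈ Q, ρ q = ρ q' → q = q' := fun q _ q' _ h => by
    rw [← hρ q, h, hρ q']
  rw [← Finset.sum_image (f := fun a => wt (phi K f a)) hρi]
  refine hx _ fun a ha b hb hab => ?_
  obtain ⟨q, hq, rfl⟩ := Finset.mem_image.1 ha
  obtain ⟨q', hq', rfl⟩ := Finset.mem_image.1 hb
  have h1 : Quotient.mk (dset K f) (ρ q) = Quotient.mk (dset K f) (ρ q') := Quotient.sound hab
  rw [hρ, hρ] at h1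
  rw [h1]

end Pool.Agent.Helper13.SA
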