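import Pool.Agent.Helper13.SA.Pure

/-! Restriction of a splitting to a finitely generated subgroup without fixed vertex: the subtree can
be chosen to contain any given finite set of vertices. -/

namespace Pool.Agent.Helper13.SA

open SimpleGraph Function MulAction

variable {C : GroupClass} {G H : Type} [Group G] [Group H]

theorem exists_restrict' (hC : SubClosed C) (S : Splitting C G) (f : H →* G) (hf : Injective f)
    [hH : Group.FG H] (hno : ∀ v : S.V, ∃ h : H, f h • v ≠ v) (P : Set S.V) (hP : P.Finite) :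
    ∃ (S' : Splitting C H) (ι : S'.V → S.V), Injective ι ∧
      (∀ (h : H) (x : S'.V), ι (h • x) = f h • ι x) ∧ P ⊆ Set.range ι ∧
      ∀ x y : S'.V, S.T.Adj (ι x) (ι y) ↔ S'.T.Adj x y := by
  classical
  obtain ⟨F, hF, hFfin⟩ := Group.fg_iff.1 hH
  obtain ⟨v0⟩ : Nonempty S.V := S.tree.connected.nonempty
  have hwalk : ∀ x : S.V, ∃ p : S.T.Walk v0 x, True := fun x => by
    obtain ⟨p⟩ := S.tree.connected v0 x
    exact ⟨p, trivial⟩
  choose p _ using hwalk
  -- the end points of the chosen walks
  let Q : Set S.V := (fun s : H => f s • v0) '' F ∪ P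
  have hQ : Q.Finite := (hFfin.image _).union hP
  let T1 : SimpleGraph S.V :=
    { Adj := fun u v => S.T.Adj u v ∧ ∃ h : H, ∃ q ∈ Q, s(f h • u, f h • v) ∈ (p q).edges
      symm := ⟨by
        rintro u v ⟨h1, h, s, hs, h2⟩
        refine ⟨h1.symm, h, s, hs, ?_⟩
        rwa [Sym2.eq_swap]⟩
      loopless := ⟨fun u hu => S.T.loopless.irrefl u hu.1⟩ }
  have hle : T1 ≤ S.T := fun u v h => h.1
  have hinv : ∀ (h : H) {u v : S.V}, T1.Adj u v → T1.Adj (f h • u) (f h • v) := by
    rintro h u v ⟨h1, k, s, hs, h2⟩
    refine ⟨S.adj _ _ _ h1, k * h⁻¹, s, hs, ?_⟩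
    have : ∀ x : S.V, f (k * h⁻¹) • f h • x = f k • x := by
      intro x
      rw [smul_smul, ← map_mul]
      simp
    rw [this, this]
    exact h2
  let φ : H → (T1 →g T1) := fun h => ⟨fun x => f h • x, fun hx => hinv h hx⟩
  have hQr : ∀ q ∈ Q, T1.Reachable v0 q := by
    intro q hq
    have : ∀ e ∈ (p q).edges, e ∈ T1.edgeSet := by
      intro e he
      induction e with | h a b =>
      refine ⟨(p q).adj_of_mem_edges he, 1, q, hq, ?_⟩
      simpa using he
    exact ⟨(p q).transfer T1 this⟩
  have hreach : ∀ h : H, T1.Reachable v0 (f h • v0) := by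
    have key : ∀ h ∈ Subgroup.closure F, T1.Reachable v0 (f h • v0) := by
      intro h hh
      induction hh using Subgroup.closure_induction with
      | mem s hs => exact hQr _ (Or.inl ⟨s, hs, rfl⟩)
      | one => simp
      | mul a b _ _ ha hb =>
        have : T1.Reachable (f a • v0) (f a • f b • v0) := hb.map (φ a)
        rw [map_mul, mul_smul]
        exact ha.trans this
      | inv a _ ha =>
        have : T1.Reachable (f a⁻¹ • v0) (f a⁻¹ • f a • v0) := ha.map (φ a⁻¹)
        rw [smul_smul, ← map_mul, inv_mul_cancel, map_one, one_smul] at this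
        exact this.symm
    intro h
    exact key h (by rw [hF]; trivial)
  let c := T1.connectedComponentMk v0
  have hmem : ∀ x : S.V, x ∈ c ↔ T1.Reachable v0 x := by
    intro x
    constructor
    · intro hx
      have : T1.connectedComponentMk x = c := hx
      exact (ConnectedComponent.exact this).symm
    · intro hx
      exact ConnectedComponent.sound hx.symm
  have hstab : ∀ (h : H) (x : S.V), x ∈ c → f h • x ∈ c := by
    intro h x hx
    rw [hmem] at hx ⊢
    exact (hreach h).trans (hx.map (φ h))
  let act' : MulAction H c :=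
    { smul := fun h x => ⟨f h • x.1, hstab h x.1 x.2⟩
      one_smul := fun x => Subtype.ext (by show f 1 • x.1 = x.1; simp)
      mul_smul := fun a b x => Subtype.ext (by
        show f (a * b) • x.1 = f a • f b • x.1
        rw [map_mul, mul_smul]) }
  refine ⟨{ V := c, act := act', T := c.toSimpleGraph
            tree := (S.tree.isAcyclic.anti hle).isTree_connectedComponent c
            adj := ?_, noinv := ?_, fin := ?_, edge := ?_, nofix := ?_ },
          fun x => x.1, Subtype.val_injective, fun h x => rfl, ?_, ?_⟩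
  · intro h u v huv
    exact hinv h huv
  · rintro h u v huv ⟨h1, h2⟩
    exact S.noinv (f h) u.1 v.1 (hle huv) ⟨congrArg Subtype.val h1, congrArg Subtype.val h2⟩
  · refine ⟨{x | ∃ s ∈ Q, s(x.1.1, x.2.1) ∈ (p s).edges}, ?_, ?_⟩
    · have h1 : ∀ s, {x : c × c | s(x.1.1, x.2.1) ∈ (p s).edges}.Finite := by
        intro s
        have hs : (((p s).support.toFinset : Finset S.V) : Set S.V).Finite := Finset.finite_toSet _
        have hs2 : {x : c | x.1 ∈ (((p s).support.toFinset : Finset S.V) : Set S.V)}.Finite :=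
          hs.preimage Subtype.val_injective.injOn
        refine (hs2.prod hs2).subset ?_
        rintro ⟨x, y⟩ hxy
        have hxy' : s(x.1, y.1) ∈ (p s).edges := hxy
        refine ⟨?_, ?_⟩
        · simpa using (p s).fst_mem_support_of_mem_edges hxy'
        · simpa using (p s).snd_mem_support_of_mem_edges hxy'
      have h2 : {x : c × c | ∃ s ∈ Q, s(x.1.1, x.2.1) ∈ (p s).edges} =
          ⋃ s ∈ Q, {x : c × c | s(x.1.1, x.2.1) ∈ (p s).edges} := by
        ext x; simp
      rw [h2]
      exact hQ.biUnion fun s _ => h1 s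
    · intro u v huv
      obtain ⟨h1, h, s, hs, h2⟩ : T1.Adj u.1 v.1 := huv
      exact ⟨h, s, hs, h2⟩
  · intro u v huv
    have h1 : S.T.Adj u.1 v.1 := hle huv
    let g : ↥(@MulAction.stabilizer H c _ act' u ⊓ @MulAction.stabilizer H c _ act' v) →*
        ↥(MulAction.stabilizer G u.1 ⊓ MulAction.stabilizer G v.1) :=
      (f.comp (Subgroup.subtype _)).codRestrict _ (by
        rintro ⟨h, hh1, hh2⟩
        exact ⟨congrArg Subtype.val hh1, congrArg Subtype.val hh2⟩)
    refine hC _ _ g ?_ (S.edge _ _ h1)
    intro a b hab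
    exact Subtype.ext (hf (congrArg Subtype.val hab))
  · intro v
    obtain ⟨h, hh⟩ := hno v.1
    exact ⟨h, fun h' => hh (congrArg Subtype.val h')⟩
  · intro q hq
    exact ⟨⟨q, (hmem q).2 (hQr q (Or.inr hq))⟩, rfl⟩
  · intro x y
    refine ⟨fun hxy => ?_, fun h => hle h⟩
    show T1.Adj x.1 y.1
    have h1 : T1.Reachable x.1 y.1 := ((hmem x.1).1 x.2).symm.trans ((hmem y.1).1 y.2)
    obtain ⟨w, hw⟩ := h1.exists_isPath
    have h2 : (w.mapLe hle).IsPath := (Walk.isPath_mapLe hle).2 hw
    have h3 : (Walk.cons hxy Walk.nil : S.T.Walk x.1 y.1).IsPath := by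
      simp [Walk.cons_isPath_iff, hxy.ne]
    obtain ⟨r, -, hr⟩ := S.tree.existsUnique_path x.1 y.1
    have h4 : w.mapLe hle = Walk.cons hxy Walk.nil := (hr _ h2).trans (hr _ h3).symm
    have h5 : w.length = 1 := by
      have := congrArg Walk.length h4
      simpa using this
    exact Walk.adj_of_length_eq_one h5

/-- In a tree one of two adjacent vertices is the next vertex on the way from the other one to a
given vertex. -/
theorem toward_or {V : Type} {T : SimpleGraph V} (hT : T.IsTree) {u v : V} (h : T.Adj u v) (o : V) :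
    toward hT u o = v ∨ toward hT v o = u := by
  classical
  obtain ⟨p, hp, -⟩ := hT.existsUnique_path v o
  by_cases hu : u ∈ p.support
  · right
    have h1 : (p.takeUntil u hu).IsPath := hp.takeUntil hu
    have h2 := toward_eq hT _ h1
    rw [toward_of_adj hT h.symm, Walk.snd_takeUntil h.ne] at h2
    rw [toward_eq hT p hp, ← h2]
  · left
    have h1 : (Walk.cons h p).IsPath := (Walk.cons_isPath_iff _ _).2 ⟨hp, hu⟩
    rw [toward_eq hT _ h1, Walk.snd_cons]

end Pool.Agent.Helper13.SA
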